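import Pool.Agent.Y612.Eq.Fin
import Pool.Agent.Y612.Eq.Comb

/-!
# Templates which construct the triangle are hard for circuits, the other equality templates are easy

A template is a family of relations `R i` on a set `D`. It constructs the triangle
(`ConstructsK3`, `Pool/Agent/Y612/Eq/Defs2.lean`) if the complete graph on three vertices is
homomorphically equivalent to a pp-power of it.

(1) Every template, on any set, which constructs the triangle is hard
(`Hard`, `Pool/Agent/Y612/Eq/Defs3.lean`): there are instances with at most `N` variables and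
constraints such that randomised circuits of monotone real gates, and further gates of a total
freedom `N ^ γ` (`γ < 1`; this allows `γ log N` NOT gates), need size `exp (N ^ ((1 - γ) / 2 - ε))`
to decide which sets of its constraints are satisfiable.

(2) A template with finitely many relations on the natural numbers that are invariant under all
permutations (a reduct of `(ℕ; =)`) is hard if and only if it constructs the triangle, and otherwise
it is easy: AND/OR circuits of polynomial size decide all instances. This is also the border for the
polymorphisms: it is easy if and only if it has a constant or an injective binary polymorphism.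
-/

set_option autoImplicit false

namespace Pool.Agent.Results.MP_6ab439_lc.CircuitDichotomy

open Pool.Agent.Y612.Eq

theorem result :
    (∀ (ι : Type) (ar : ι → ℕ) (D : Type) (R : ∀ i, Set (Fin (ar i) → D)),
      ConstructsK3 R → Hard R ∧ ¬ Easy R) ∧
    (∀ (ι : Type) [Finite ι] (ar : ι → ℕ) (R : ∀ i, Set (Fin (ar i) → ℕ)), Inv R →
      (Hard R ↔ ConstructsK3 R) ∧ (Easy R ↔ ¬ ConstructsK3 R) ∧
        (Easy R ↔ HasConst R ∨ HasInj R)) := by
  have h1 : ∀ (ι : Type) (ar : ι → ℕ) (D : Type) (R : ∀ i, Set (Fin (ar i) → D)),
      ConstructsK3 R → Hard R ∧ ¬ Easy R := fun ι ar D R h =>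
    ⟨hard_of h, fun h' => EQ_Excl ι ar D R h' (hard_of h)⟩
  refine ⟨h1, fun ι _ ar R hR => ?_⟩
  have h2 : HasConst R ∨ HasInj R → Easy R := by
    rintro (h | h)
    · exact easy_const h
    · exact easy_inj hR h
  have h3 : ¬ ConstructsK3 R → HasConst R ∨ HasInj R := pol_of EQ_Comb hR
  refine ⟨⟨fun h => ?_, fun h => (h1 ι ar ℕ R h).1⟩, ⟨fun h h' => (h1 ι ar ℕ R h').2 h,
    fun h => h2 (h3 h)⟩, ⟨fun h => h3 fun h' => (h1 ι ar ℕ R h').2 h, h2⟩⟩
  by_contra h'
  exact EQ_Excl ι ar ℕ R (h2 (h3 h')) h

end Pool.Agent.Results.MP_6ab439_lc.CircuitDichotomy
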